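import Pool.Agent.Q320.MF.Interp

set_option autoImplicit false

/-!
# A holomorphic function on a disc around a bounded connected set with values close to a segment
-/

namespace Pool.Agent.Q320.MF

open Metric Complex

theorem chart (E : Set ℂ) (hE : IsPreconnected E) (hE2 : E.Nontrivial)
    (hb : Bornology.IsBounded E) (n : ℕ) (δ : ℝ) (hδ : 0 < δ) :
    ∃ (e : ℂ) (ρ : ℝ) (h : ℂ → ℂ) (w : Fin n → ℂ), closure E ⊆ ball e ρ ∧
      DifferentiableOn ℂ h (ball e ρ) ∧ (∀ i, w i ∈ E) ∧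
      (∀ z ∈ ball e ρ, |(h z).re| ≤ n + 2 ∧ |(h z).im| ≤ δ) ∧
      (∀ i, ‖h (w i) - nu0 n i‖ ≤ δ) ∧ Set.InjOn h (ball e ρ) ∧
      ∀ z ∈ ball e ρ, deriv h z ≠ 0 := by
  obtain ⟨e, he, e1, he1, hne⟩ := hE2
  have hcomp : IsCompact (closure E) := hb.isCompact_closure
  obtain ⟨p, hp, hmax⟩ := hcomp.exists_isMaxOn ⟨e, subset_closure he⟩
    (f := fun z => ‖z - e‖) (by fun_prop)
  set R : ℝ := ‖p - e‖ with hR
  have hRpos : 0 < R := by
    have h1 : ‖e1 - e‖ ≤ R := hmax (subset_closure he1)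
    have h2 : 0 < ‖e1 - e‖ := norm_pos_iff.2 (sub_ne_zero.2 (Ne.symm hne))
    linarith
  have hpe : p - e ≠ 0 := norm_pos_iff.1 hRpos
  set s : ℝ := min 1 (δ / 3) with hs
  have hs0 : 0 < s := lt_min one_pos (by positivity)
  have hs1 : s ≤ 1 := min_le_left _ _
  have hs3 : s ≤ δ / 3 := min_le_right _ _
  set ε : ℝ := Real.exp (-((n : ℝ) + 1) / s) with hε
  have hε0 : 0 < ε := Real.exp_pos _
  have hε1 : ε ≤ 1 := by
    rw [hε]
    refine Real.exp_le_one_iff.2 ?_
    exact div_nonpos_of_nonpos_of_nonneg (by linarith [(n.cast_nonneg : (0 : ℝ) ≤ n)]) hs0.le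
  set ψ0 : ℂ → ℂ := fun z => 1 - (z - e) / (p - e) with hψ0
  have hw : ∀ i : Fin n, ∃ z ∈ E, ‖ψ0 z‖ = Real.exp (-((i : ℕ) + 1 : ℝ) / s) := by
    intro i
    have hpos := Real.exp_pos (-((i : ℕ) + 1 : ℝ) / s)
    have hlt1 : Real.exp (-((i : ℕ) + 1 : ℝ) / s) ≤ 1 := by
      refine Real.exp_le_one_iff.2 ?_
      exact div_nonpos_of_nonpos_of_nonneg
        (by linarith [(Nat.cast_nonneg (i : ℕ) : (0 : ℝ) ≤ (i : ℕ))]) hs0.le
    have hcont : Continuous fun z => ‖ψ0 z‖ := by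
      rw [hψ0]; fun_prop
    have hz1 : ∃ z1 ∈ E, ‖ψ0 z1‖ < Real.exp (-((i : ℕ) + 1 : ℝ) / s) := by
      have hopen : IsOpen {z | ‖ψ0 z‖ < Real.exp (-((i : ℕ) + 1 : ℝ) / s)} :=
        isOpen_lt hcont continuous_const
      have hpin : p ∈ {z | ‖ψ0 z‖ < Real.exp (-((i : ℕ) + 1 : ℝ) / s)} := by
        simp only [Set.mem_setOf_eq, hψ0]
        rw [div_self hpe, sub_self, norm_zero]
        exact hpos
      obtain ⟨z1, h1, h2⟩ := mem_closure_iff.1 hp _ hopen hpin
      exact ⟨z1, h2, h1⟩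
    obtain ⟨z1, hz1E, hz1⟩ := hz1
    have := hE.intermediate_value hz1E he hcont.continuousOn
    have hmem : Real.exp (-((i : ℕ) + 1 : ℝ) / s) ∈ Set.Icc ‖ψ0 z1‖ ‖ψ0 e‖ := by
      refine ⟨hz1.le, ?_⟩
      simp only [hψ0, sub_self, zero_div, sub_zero, norm_one]
      exact hlt1
    obtain ⟨z, hz, hz2⟩ := this hmem
    exact ⟨z, hz, hz2⟩
  choose w hwE hwn using hw
  set ψ : ℂ → ℂ := fun z => 1 + (ε : ℂ) - (z - e) / (p - e) with hψ
  have hball : ∀ z ∈ ball e (R * (1 + ε / 2)), ‖(z - e) / (p - e)‖ < 1 + ε / 2 := by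
    intro z hz
    rw [norm_div, div_lt_iff₀ hRpos]
    rw [mem_ball, dist_eq_norm] at hz
    linarith
  have hre : ∀ z ∈ ball e (R * (1 + ε / 2)), ε / 2 ≤ (ψ z).re := by
    intro z hz
    have h1 := (Complex.re_le_norm ((z - e) / (p - e))).trans (hball z hz).le
    have h2 : (ψ z).re = 1 + ε - ((z - e) / (p - e)).re := by
      simp [hψ]
    rw [h2]
    linarith
  have hnorm : ∀ z ∈ ball e (R * (1 + ε / 2)), ‖ψ z‖ ≤ 4 := by
    intro z hz
    have h1 := (hball z hz).le
    have h2 : ‖ψ z‖ ≤ ‖(1 + (ε : ℂ))‖ + ‖(z - e) / (p - e)‖ := norm_sub_le _ _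
    have h3 : ‖(1 + (ε : ℂ))‖ ≤ 1 + ε := by
      refine (norm_add_le _ _).trans ?_
      rw [norm_one, Complex.norm_real, Real.norm_eq_abs, abs_of_pos hε0]
    linarith
  have hnorm2 : ∀ z ∈ ball e (R * (1 + ε / 2)), ε / 2 ≤ ‖ψ z‖ := fun z hz =>
    (hre z hz).trans (Complex.re_le_norm _)
  have hslit : ∀ z ∈ ball e (R * (1 + ε / 2)), ψ z ∈ slitPlane := fun z hz =>
    Or.inl (lt_of_lt_of_le (by positivity) (hre z hz))
  set h : ℂ → ℂ := fun z => -((s : ℂ) * log (ψ z)) with hh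
  have hder : ∀ z ∈ ball e (R * (1 + ε / 2)),
      HasDerivAt h (-((s : ℂ) * ((-(1 / (p - e))) / ψ z))) z := by
    intro z hz
    have h1 : HasDerivAt ψ (-(1 / (p - e))) z := by
      have := ((hasDerivAt_id z).sub_const e).div_const (p - e)
      exact this.const_sub (1 + (ε : ℂ))
    exact ((h1.clog (hslit z hz)).const_mul (s : ℂ)).neg
  have hreh : ∀ z, (h z).re = -(s * Real.log ‖ψ z‖) := by
    intro z
    simp [hh, Complex.log_re]
  have himh : ∀ z, (h z).im = -(s * (ψ z).arg) := by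
    intro z
    simp [hh, Complex.log_im]
  have him : ∀ z ∈ ball e (R * (1 + ε / 2)), |(h z).im| ≤ s * (Real.pi / 2) := by
    intro z hz
    rw [himh, abs_neg, abs_mul, abs_of_pos hs0]
    refine mul_le_mul_of_nonneg_left ?_ hs0.le
    exact Complex.abs_arg_le_pi_div_two_iff.2 ((by positivity : (0 : ℝ) ≤ ε / 2).trans (hre z hz))
  have hpi : Real.pi / 2 ≤ 2 := by linarith [Real.pi_le_four]
  have hclos : closure E ⊆ ball e (R * (1 + ε / 2)) := by
    intro z hz
    have h1 : ‖z - e‖ ≤ R := hmax hz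
    rw [mem_ball, dist_eq_norm]
    nlinarith
  refine ⟨e, R * (1 + ε / 2), h, w, hclos, ?_, hwE, ?_, ?_, ?_, ?_⟩
  · intro z hz
    exact (hder z hz).differentiableAt.differentiableWithinAt
  · intro z hz
    have hn0 : (0 : ℝ) ≤ n := n.cast_nonneg
    constructor
    · rw [hreh, abs_neg]
      have hψpos : 0 < ‖ψ z‖ := lt_of_lt_of_le (by positivity) (hnorm2 z hz)
      have h1 : Real.log ‖ψ z‖ ≤ Real.log 4 := Real.log_le_log hψpos (hnorm z hz)
      have h2 : Real.log (ε / 2) ≤ Real.log ‖ψ z‖ := Real.log_le_log (by positivity) (hnorm2 z hz)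
      have h3 : Real.log (ε / 2) = -((n : ℝ) + 1) / s - Real.log 2 := by
        rw [Real.log_div hε0.ne' (by norm_num), hε, Real.log_exp]
      have h4 : Real.log 4 ≤ 2 := by
        have : Real.log 4 = 2 * Real.log 2 := by
          rw [show (4 : ℝ) = 2 ^ 2 by norm_num, Real.log_pow]; push_cast; ring
        rw [this]
        linarith [Real.log_two_lt_d9]
      have h5 : Real.log 2 ≤ 1 := by linarith [Real.log_two_lt_d9]
      have h6 : s * (-((n : ℝ) + 1) / s) = -((n : ℝ) + 1) := by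
        field_simp
      rw [abs_le]
      constructor
      · have : s * (-((n : ℝ) + 1) / s - Real.log 2) ≤ s * Real.log ‖ψ z‖ := by
          refine mul_le_mul_of_nonneg_left ?_ hs0.le
          linarith
        rw [mul_sub, h6] at this
        have h7 : s * Real.log 2 ≤ 1 * 1 := mul_le_mul hs1 h5 (Real.log_nonneg (by norm_num)) (by norm_num)
        linarith
      · have h8 : s * Real.log ‖ψ z‖ ≤ s * 2 := mul_le_mul_of_nonneg_left (h1.trans h4) hs0.le
        linarith
    · refine (him z hz).trans ?_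
      have : s * (Real.pi / 2) ≤ (δ / 3) * 2 := mul_le_mul hs3 hpi (by positivity) (by positivity)
      linarith
  · intro i
    have hwb : w i ∈ ball e (R * (1 + ε / 2)) := hclos (subset_closure (hwE i))
    have h1 : ‖h (w i) - nu0 n i‖ ≤ |(h (w i) - nu0 n i).re| + |(h (w i) - nu0 n i).im| :=
      Complex.norm_le_abs_re_add_abs_im _
    have h2 : (h (w i) - nu0 n i).im = (h (w i)).im := by
      simp [nu0]
    have h3 : (h (w i) - nu0 n i).re = -(s * Real.log ‖ψ (w i)‖) - ((i : ℕ) + 1 : ℝ) := by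
      rw [sub_re, hreh]
      simp [nu0]
    -- estimate of the norm of `ψ (w i)`
    have h4 : ψ (w i) = ψ0 (w i) + (ε : ℂ) := by
      simp only [hψ, hψ0]; ring
    set t : ℝ := Real.exp (-((i : ℕ) + 1 : ℝ) / s) with ht
    have ht0 : 0 < t := Real.exp_pos _
    have hεt : ε ≤ t / 2 := by
      have h5 : ε = t * Real.exp (-((n : ℝ) - (i : ℕ)) / s) := by
        rw [hε, ht, ← Real.exp_add]
        congr 1
        field_simp
        ring
      have hin : ((i : ℕ) : ℝ) + 1 ≤ n := by exact_mod_cast i.2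
      have h6 : Real.exp (-((n : ℝ) - (i : ℕ)) / s) ≤ Real.exp (-1) := by
        refine Real.exp_le_exp.2 ?_
        rw [div_le_iff₀ hs0]
        nlinarith
      have h7 : Real.exp (-1) ≤ 1 / 2 := by
        rw [Real.exp_neg]
        have : (2 : ℝ) ≤ Real.exp 1 := by
          have := Real.add_one_le_exp (1 : ℝ)
          linarith
        rw [one_div]
        exact inv_anti₀ (by norm_num) this
      rw [h5]
      nlinarith [mul_le_mul_of_nonneg_left (h6.trans h7) ht0.le]
    have h5 : t / 2 ≤ ‖ψ (w i)‖ := by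
      rw [h4]
      have h6 : ‖ψ0 (w i)‖ ≤ ‖ψ0 (w i) + (ε : ℂ)‖ + ‖(ε : ℂ)‖ := by
        have := norm_sub_le (ψ0 (w i) + (ε : ℂ)) (ε : ℂ)
        rw [add_sub_cancel_right] at this
        exact this
      rw [hwn i, Complex.norm_real, Real.norm_eq_abs, abs_of_pos hε0] at h6
      linarith
    have h6 : ‖ψ (w i)‖ ≤ 2 * t := by
      rw [h4]
      refine (norm_add_le _ _).trans ?_
      rw [hwn i, Complex.norm_real, Real.norm_eq_abs, abs_of_pos hε0]
      linarith
    have h7 : Real.log ‖ψ (w i)‖ ≤ Real.log 2 + -((i : ℕ) + 1 : ℝ) / s := by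
      have := Real.log_le_log (lt_of_lt_of_le (by positivity) h5) h6
      rw [Real.log_mul (by norm_num) ht0.ne', ht, Real.log_exp] at this
      exact this
    have h8 : -((i : ℕ) + 1 : ℝ) / s - Real.log 2 ≤ Real.log ‖ψ (w i)‖ := by
      have := Real.log_le_log (by positivity) h5
      rw [Real.log_div ht0.ne' (by norm_num), ht, Real.log_exp] at this
      exact this
    have h9 : Real.log 2 ≤ 1 := by linarith [Real.log_two_lt_d9]
    have h10 : s * (-((i : ℕ) + 1 : ℝ) / s) = -((i : ℕ) + 1 : ℝ) := by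
      field_simp
    have h11 : |(h (w i) - nu0 n i).re| ≤ s := by
      rw [h3, abs_le]
      have hA : s * Real.log ‖ψ (w i)‖ ≤ s * (Real.log 2 + -((i : ℕ) + 1 : ℝ) / s) :=
        mul_le_mul_of_nonneg_left h7 hs0.le
      have hB : s * (-((i : ℕ) + 1 : ℝ) / s - Real.log 2) ≤ s * Real.log ‖ψ (w i)‖ :=
        mul_le_mul_of_nonneg_left h8 hs0.le
      rw [mul_add, h10] at hA
      rw [mul_sub, h10] at hB
      have hC : s * Real.log 2 ≤ s * 1 := mul_le_mul_of_nonneg_left h9 hs0.le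
      constructor <;> linarith
    have h12 : |(h (w i) - nu0 n i).im| ≤ s * 2 := by
      rw [h2]
      exact (him _ hwb).trans (mul_le_mul_of_nonneg_left hpi hs0.le)
    linarith
  · intro z hz z' hz' hzz
    have h1 : log (ψ z) = log (ψ z') := by
      have h2 : (s : ℂ) ≠ 0 := by exact_mod_cast hs0.ne'
      simp only [hh] at hzz
      exact mul_left_cancel₀ h2 (neg_injective hzz)
    have hz0 : ψ z ≠ 0 := slitPlane_ne_zero (hslit z hz)
    have hz0' : ψ z' ≠ 0 := slitPlane_ne_zero (hslit z' hz')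
    have h2 := congrArg exp h1
    rw [exp_log hz0, exp_log hz0'] at h2
    simp only [hψ] at h2
    have h3 : (z - e) / (p - e) = (z' - e) / (p - e) := by
      linear_combination -h2
    have h4 := (div_left_inj' hpe).1 h3
    linear_combination h4
  · intro z hz
    rw [(hder z hz).deriv]
    have hz0 : ψ z ≠ 0 := slitPlane_ne_zero (hslit z hz)
    have h2 : (s : ℂ) ≠ 0 := by exact_mod_cast hs0.ne'
    exact neg_ne_zero.2 (mul_ne_zero h2 (div_ne_zero (neg_ne_zero.2 (one_div_ne_zero hpe)) hz0))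

end Pool.Agent.Q320.MF
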