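import Mathlib

set_option autoImplicit false

/-!
# Interpolation close to the real line
-/

namespace Pool.Agent.Q320.MF

open Finset

/-- the interpolating function: `Qf c ν (ν i) = c i` -/
noncomputable def Qf {n : ℕ} (c ν : Fin n → ℂ) (v : ℂ) : ℂ :=
  v + ∑ i, (c i - ν i) * ∏ k ∈ univ.erase i, (v - ν k) / (ν i - ν k)

/-- the quotient `(Qf c ν v - c j) / (v - ν j)` -/
noncomputable def DD {n : ℕ} (c ν : Fin n → ℂ) (j : Fin n) (v : ℂ) : ℂ :=
  1 + ∑ i ∈ univ.erase j, ((c i - ν i) - (c j - ν j)) *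
    ((1 / (ν i - ν j)) * ∏ k ∈ (univ.erase i).erase j, (v - ν k) / (ν i - ν k))

theorem sum_ell {n : ℕ} (ν : Fin n → ℂ) (hν : Function.Injective ν) (j : Fin n) (v : ℂ) :
    ∑ i, ∏ k ∈ univ.erase i, (v - ν k) / (ν i - ν k) = 1 := by
  have h := Lagrange.sum_basis (s := (univ : Finset (Fin n))) (v := ν) (hν.injOn) ⟨j, mem_univ j⟩
  have h2 := congrArg (Polynomial.eval v) h
  rw [Polynomial.eval_finsetSum] at h2
  rw [Polynomial.eval_one] at h2
  rw [← h2]
  refine sum_congr rfl fun i _ => ?_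
  unfold Lagrange.basis
  rw [Polynomial.eval_prod]
  refine prod_congr rfl fun k _ => ?_
  unfold Lagrange.basisDivisor
  simp only [Polynomial.eval_mul, Polynomial.eval_C, Polynomial.eval_sub, Polynomial.eval_X]
  rw [div_eq_inv_mul]

theorem Qf_sub {n : ℕ} (c ν : Fin n → ℂ) (hν : Function.Injective ν) (j : Fin n) (v : ℂ) :
    Qf c ν v - c j = (v - ν j) * DD c ν j v := by
  have h1 := sum_ell ν hν j v
  have h2 : ∑ i, (c i - ν i) * ∏ k ∈ univ.erase i, (v - ν k) / (ν i - ν k) - (c j - ν j) =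
      ∑ i, ((c i - ν i) - (c j - ν j)) * ∏ k ∈ univ.erase i, (v - ν k) / (ν i - ν k) := by
    calc _ = ∑ i, (c i - ν i) * ∏ k ∈ univ.erase i, (v - ν k) / (ν i - ν k) -
          (c j - ν j) * ∑ i, ∏ k ∈ univ.erase i, (v - ν k) / (ν i - ν k) := by
          rw [h1, mul_one]
      _ = _ := by
          rw [mul_sum, ← sum_sub_distrib]
          refine sum_congr rfl fun i _ => ?_
          ring
  have h3 : ∑ i, ((c i - ν i) - (c j - ν j)) * ∏ k ∈ univ.erase i, (v - ν k) / (ν i - ν k) =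
      (v - ν j) * ∑ i ∈ univ.erase j, ((c i - ν i) - (c j - ν j)) *
        ((1 / (ν i - ν j)) * ∏ k ∈ (univ.erase i).erase j, (v - ν k) / (ν i - ν k)) := by
    rw [← add_sum_erase univ _ (mem_univ j), sub_self, zero_mul, zero_add, mul_sum]
    refine sum_congr rfl fun i hi => ?_
    have hij : i ≠ j := ne_of_mem_erase hi
    have hj : j ∈ univ.erase i := mem_erase.2 ⟨hij.symm, mem_univ j⟩
    rw [← mul_prod_erase _ _ hj]
    ring
  unfold DD Qf
  rw [mul_add, mul_one, ← h3, ← h2]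
  ring

theorem Qf_node {n : ℕ} (c ν : Fin n → ℂ) (hν : Function.Injective ν) (j : Fin n) :
    Qf c ν (ν j) = c j := by
  have := Qf_sub c ν hν j (ν j)
  rw [sub_self, zero_mul] at this
  exact sub_eq_zero.1 this

/-- the real nodes `1, 2, …, n` -/
noncomputable def nu0 (n : ℕ) (i : Fin n) : ℂ := ((i : ℕ) : ℂ) + 1

/-- the values `i + √-1 p i` -/
noncomputable def cv {n : ℕ} (p : Fin n → ℝ) (i : Fin n) : ℂ := nu0 n i + Complex.I * (p i : ℂ)

theorem nu0_injective (n : ℕ) : Function.Injective (nu0 n) := by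
  intro i j hij
  unfold nu0 at hij
  have h : ((i : ℕ) : ℂ) = ((j : ℕ) : ℂ) := add_right_cancel hij
  exact Fin.ext (by exact_mod_cast h)

theorem continuousAt_Qf {n : ℕ} (c ν : Fin n → ℂ) (hν : Function.Injective ν) (v : ℂ) :
    ContinuousAt (fun y : ℂ × (Fin n → ℂ) => Qf c y.2 y.1) (v, ν) := by
  unfold Qf
  refine ContinuousAt.add continuousAt_fst ?_
  refine tendsto_finsetSum _ fun i _ => ?_
  refine ContinuousAt.mul (by fun_prop) ?_
  refine tendsto_finsetProd _ fun k hk => ?_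
  refine ContinuousAt.div (by fun_prop) (by fun_prop) ?_
  have hki : k ≠ i := ne_of_mem_erase hk
  exact sub_ne_zero.2 fun h => hki (hν h).symm

theorem continuousAt_DD {n : ℕ} (c ν : Fin n → ℂ) (hν : Function.Injective ν) (j : Fin n) (v : ℂ) :
    ContinuousAt (fun y : ℂ × (Fin n → ℂ) => DD c y.2 j y.1) (v, ν) := by
  unfold DD
  refine ContinuousAt.add continuousAt_const ?_
  refine tendsto_finsetSum _ fun i hi => ?_
  have hij : i ≠ j := ne_of_mem_erase hi
  refine ContinuousAt.mul (by fun_prop) ?_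
  refine ContinuousAt.mul ?_ ?_
  · refine ContinuousAt.div (by fun_prop) (by fun_prop) ?_
    exact sub_ne_zero.2 fun h => hij (hν h)
  refine tendsto_finsetProd _ fun k hk => ?_
  refine ContinuousAt.div (by fun_prop) (by fun_prop) ?_
  have hki : k ≠ i := ne_of_mem_erase (mem_of_mem_erase hk)
  exact sub_ne_zero.2 fun h => hki (hν h).symm

theorem Qf_real {n : ℕ} (p : Fin n → ℝ) (x : ℝ) :
    ∃ P : ℝ, Qf (cv p) (nu0 n) x = x + Complex.I * P := by
  refine ⟨∑ i, p i * ∏ k ∈ univ.erase i, (x - (((k : ℕ) : ℝ) + 1)) /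
    ((((i : ℕ) : ℝ) + 1) - (((k : ℕ) : ℝ) + 1)), ?_⟩
  unfold Qf cv nu0
  push_cast
  rw [mul_sum]
  congr 1
  refine sum_congr rfl fun i _ => ?_
  ring

theorem DD_real {n : ℕ} (p : Fin n → ℝ) (j : Fin n) (x : ℝ) :
    ∃ P : ℝ, DD (cv p) (nu0 n) j x = 1 + Complex.I * P := by
  refine ⟨∑ i ∈ univ.erase j, (p i - p j) * ((1 / ((((i : ℕ) : ℝ) + 1) - (((j : ℕ) : ℝ) + 1))) *
    ∏ k ∈ (univ.erase i).erase j, (x - (((k : ℕ) : ℝ) + 1)) /
    ((((i : ℕ) : ℝ) + 1) - (((k : ℕ) : ℝ) + 1))), ?_⟩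
  unfold DD cv nu0
  push_cast
  rw [mul_sum]
  congr 1
  refine sum_congr rfl fun i _ => ?_
  ring

/-- **Stability.** -/
theorem near {n : ℕ} (p : Fin n → ℝ) (L : ℝ) (Qs : Finset ℝ) :
    ∃ δ : ℝ, 0 < δ ∧ ∀ ν : Fin n → ℂ, (∀ i, ‖ν i - nu0 n i‖ ≤ δ) → ∀ v : ℂ,
      |v.re| ≤ L → |v.im| ≤ δ →
      (∀ j, DD (cv p) ν j v ≠ 0) ∧
      (∀ j, ∀ q ∈ Qs, q ≠ p j → Qf (cv p) ν v ≠ nu0 n j + Complex.I * (q : ℂ)) ∧
      Qf (cv p) ν v ≠ ((L + 1 : ℝ) : ℂ) := by
  set Good : ℂ × (Fin n → ℂ) → Prop := fun y =>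
    (∀ j, DD (cv p) y.2 j y.1 ≠ 0) ∧
      (∀ j, ∀ q ∈ Qs, q ≠ p j → Qf (cv p) y.2 y.1 ≠ nu0 n j + Complex.I * (q : ℂ)) ∧
      Qf (cv p) y.2 y.1 ≠ ((L + 1 : ℝ) : ℂ) with hGood
  set K : Set (ℂ × (Fin n → ℂ)) := (fun x : ℝ => ((x : ℂ), nu0 n)) '' Set.Icc (-L) L with hK
  have hKc : IsCompact K := isCompact_Icc.image (by fun_prop)
  have hev : ∀ y ∈ K, ∀ᶠ y' in nhds y, Good y' := by
    rintro y ⟨x, hx, rfl⟩
    have hQ := continuousAt_Qf (cv p) (nu0 n) (nu0_injective n) (x : ℂ)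
    obtain ⟨P, hP⟩ := Qf_real p x
    refine Filter.Eventually.and ?_ (Filter.Eventually.and ?_ ?_)
    · refine Filter.eventually_all.2 fun j => ?_
      refine (continuousAt_DD (cv p) (nu0 n) (nu0_injective n) j (x : ℂ)).eventually_ne ?_
      obtain ⟨R, hR⟩ := DD_real p j x
      simp only
      rw [hR]
      intro h
      have := congrArg Complex.re h
      simp at this
    · refine Filter.eventually_all.2 fun j => ?_
      refine (Filter.eventually_all_finset Qs).2 fun q _ => ?_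
      by_cases hq : q = p j
      · exact Filter.Eventually.of_forall fun y' h => absurd hq h
      refine (hQ.eventually_ne ?_).mono fun y' hy' _ => hy'
      simp only
      rw [hP]
      intro h
      unfold nu0 at h
      have h1 := congrArg Complex.re h
      have h2 := congrArg Complex.im h
      simp at h1 h2
      have h3 : (x : ℂ) = nu0 n j := by
        unfold nu0
        rw [h1]
        push_cast
        ring
      have h4 := Qf_node (cv p) (nu0 n) (nu0_injective n) j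
      rw [← h3, hP] at h4
      unfold cv at h4
      rw [← h3] at h4
      have h5 := congrArg Complex.im h4
      simp at h5
      exact hq (h2.symm.trans h5)
    · refine hQ.eventually_ne ?_
      simp only
      rw [hP]
      intro h
      have h1 := congrArg Complex.re h
      simp at h1
      have := hx.2
      linarith
  obtain ⟨ε, hε, hsub⟩ := hKc.exists_thickening_subset_open (isOpen_interior (s := {y | Good y}))
    (fun y hy => mem_interior_iff_mem_nhds.2 (hev y hy))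
  refine ⟨ε / 2, by positivity, fun ν hν v hre him => ?_⟩
  have hmem : (v, ν) ∈ Metric.thickening ε K := by
    rw [Metric.mem_thickening_iff]
    refine ⟨((v.re : ℂ), nu0 n), ⟨v.re, abs_le.1 hre, rfl⟩, ?_⟩
    rw [Prod.dist_eq]
    refine max_lt ?_ ?_
    · rw [Complex.dist_eq]
      have : v - (v.re : ℂ) = Complex.I * (v.im : ℂ) := by
        apply Complex.ext <;> simp
      simp only
      rw [this, norm_mul, Complex.norm_I, one_mul, Complex.norm_real, Real.norm_eq_abs]
      linarith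
    · refine lt_of_le_of_lt ((dist_pi_le_iff (by positivity)).2 fun i => ?_) (half_lt_self hε)
      simp only
      rw [Complex.dist_eq]
      exact hν i
  have h := interior_subset (hsub hmem)
  exact h

end Pool.Agent.Q320.MF
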