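import Mathlib

set_option autoImplicit false

/-!
# Linear independence of square roots
-/

namespace Pool.Agent.Q320.MF

open Finset

/-- Square roots of elements which are pairwise different modulo squares are independent. -/
theorem sqrt_relation {L K ι : Type} [Field L] [CharZero L] [Field K] [Algebra L K]
    [Algebra.IsAlgebraic L K] [DecidableEq ι] (s : ι → K) (a : ι → L)
    (hs : ∀ i, s i ^ 2 = algebraMap L K (a i)) (h0 : ∀ i, a i ≠ 0)
    (hab : ∀ i j, i ≠ j → ¬ ∃ y, a i * a j = y ^ 2) :
    ∀ (m : ℕ) (S : Finset ι) (c : ι → L), S.card ≤ m → ∑ i ∈ S, c i • s i = 0 →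
      ∀ i ∈ S, c i = 0 := by
  have hs0 : ∀ i, s i ≠ 0 := by
    intro i h
    have h1 := hs i
    rw [h, zero_pow (by norm_num)] at h1
    exact h0 i ((map_eq_zero (algebraMap L K)).1 h1.symm)
  have : IsAlgClosure L (AlgebraicClosure K) :=
    ⟨inferInstance, Algebra.IsAlgebraic.trans L K (AlgebraicClosure K)⟩
  have : Normal L (AlgebraicClosure K) := IsAlgClosure.normal L (AlgebraicClosure K)
  have : IsGalois L (AlgebraicClosure K) := { }
  set φ : K →+* AlgebraicClosure K := algebraMap K (AlgebraicClosure K) with hφ
  intro m
  induction m with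
  | zero =>
    intro S c hS _ i hi
    rw [Nat.le_zero, card_eq_zero] at hS
    rw [hS] at hi
    exact absurd hi (notMem_empty i)
  | succ m ih =>
    intro S c hS hrel
    -- every two different indices
    have key : ∀ i0 ∈ S, ∀ j ∈ S, j ≠ i0 → c j = 0 := by
      intro i0 hi0 j hj hne
      -- an automorphism which moves `s j / s i0`
      have hnot : φ (s j / s i0) ∉ Set.range (algebraMap L (AlgebraicClosure K)) := by
        rintro ⟨l, hl⟩
        have h1 : φ (algebraMap L K l) = φ (s j / s i0) := by
          rw [← hl, hφ, ← IsScalarTower.algebraMap_apply]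
        have h2 : algebraMap L K l = s j / s i0 := φ.injective h1
        have h3 : algebraMap L K (l * a i0) = s j * s i0 := by
          rw [map_mul, h2, ← hs i0]
          field_simp [hs0 i0]
        have h4 : algebraMap L K (a j * a i0) = algebraMap L K ((l * a i0) ^ 2) := by
          rw [map_pow, h3, map_mul, ← hs j, ← hs i0]; ring
        exact hab j i0 hne ⟨l * a i0, (algebraMap L K).injective h4⟩
      obtain ⟨σ, hσ⟩ : ∃ σ : AlgebraicClosure K ≃ₐ[L] AlgebraicClosure K,
          σ (φ (s j / s i0)) ≠ φ (s j / s i0) := by
        by_contra hcon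
        push Not at hcon
        exact hnot ((InfiniteGalois.mem_range_algebraMap_iff_fixed _).2 hcon)
      have hsq : ∀ i, ∃ l : L, (φ (s i / s i0)) ^ 2 = algebraMap L (AlgebraicClosure K) l := by
        intro i
        refine ⟨a i / a i0, ?_⟩
        rw [← map_pow, div_pow, hs, hs, ← map_div₀, hφ, ← IsScalarTower.algebraMap_apply]
      have hε : ∀ i, ∃ ε : L, (ε = 1 ∨ ε = -1) ∧
          σ (φ (s i / s i0)) = algebraMap L (AlgebraicClosure K) ε * φ (s i / s i0) := by
        intro i
        obtain ⟨l, hl⟩ := hsq i
        have h1 : σ (φ (s i / s i0)) ^ 2 = φ (s i / s i0) ^ 2 := by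
          rw [← map_pow, hl, AlgEquiv.commutes]
        rcases sq_eq_sq_iff_eq_or_eq_neg.1 h1 with h2 | h2
        · exact ⟨1, Or.inl rfl, by rw [map_one, one_mul, h2]⟩
        · exact ⟨-1, Or.inr rfl, by rw [map_neg, map_one, neg_one_mul, h2]⟩
      choose ε hε1 hε2 using hε
      have hεi : ε i0 = 1 := by
        rcases hε1 i0 with h | h
        · exact h
        · exfalso
          have h1 := hε2 i0
          rw [div_self (hs0 i0), map_one, map_one, mul_one, h, map_neg, map_one] at h1
          have h2 : (1 : AlgebraicClosure K) + 1 = 0 := by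
            nth_rewrite 1 [h1]
            ring
          have : CharZero (AlgebraicClosure K) := charZero_of_injective_algebraMap
            (algebraMap L (AlgebraicClosure K)).injective
          norm_num at h2
      have hεj : ε j = -1 := by
        rcases hε1 j with h | h
        · exfalso
          apply hσ
          rw [hε2 j, h, map_one, one_mul]
        · exact h
      -- the relation for the quotients
      have hrel1 : ∑ i ∈ S, algebraMap L (AlgebraicClosure K) (c i) * φ (s i / s i0) = 0 := by
        have h1 : φ ((∑ i ∈ S, c i • s i) / s i0) = 0 := by rw [hrel, zero_div, map_zero]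
        rw [sum_div, map_sum] at h1
        rw [← h1]
        refine sum_congr rfl fun i _ => ?_
        rw [Algebra.smul_def, mul_div_assoc, map_mul, hφ, ← IsScalarTower.algebraMap_apply]
      have hrel2 : ∑ i ∈ S, algebraMap L (AlgebraicClosure K) (c i) *
          (algebraMap L (AlgebraicClosure K) (ε i) * φ (s i / s i0)) = 0 := by
        have h1 : σ (∑ i ∈ S, algebraMap L (AlgebraicClosure K) (c i) * φ (s i / s i0)) = 0 := by
          rw [hrel1, map_zero]
        rw [map_sum] at h1
        rw [← h1]
        refine sum_congr rfl fun i _ => ?_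
        rw [map_mul, AlgEquiv.commutes, hε2]
      have hrel3 : ∑ i ∈ S.erase i0, (c i * (1 - ε i)) • s i = 0 := by
        have h1 : φ ((∑ i ∈ S.erase i0, (c i * (1 - ε i)) • s i) / s i0) = 0 := by
          rw [sum_div, map_sum]
          have h2 : ∑ i ∈ S, algebraMap L (AlgebraicClosure K) (c i * (1 - ε i)) *
              φ (s i / s i0) = 0 := by
            have : ∑ i ∈ S, algebraMap L (AlgebraicClosure K) (c i) * φ (s i / s i0) -
                ∑ i ∈ S, algebraMap L (AlgebraicClosure K) (c i) *
                (algebraMap L (AlgebraicClosure K) (ε i) * φ (s i / s i0)) = 0 := by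
              rw [hrel1, hrel2, sub_zero]
            rw [← this, ← sum_sub_distrib]
            refine sum_congr rfl fun i _ => ?_
            rw [map_mul, map_sub, map_one]
            ring
          rw [← add_sum_erase S _ hi0, hεi, sub_self, mul_zero, map_zero, zero_mul, zero_add] at h2
          rw [← h2]
          refine sum_congr rfl fun i _ => ?_
          rw [Algebra.smul_def, mul_div_assoc, map_mul, hφ, ← IsScalarTower.algebraMap_apply]
        have h3 := φ.injective (h1.trans (map_zero φ).symm)
        rcases div_eq_zero_iff.1 h3 with h4 | h4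
        · exact h4
        · exact absurd h4 (hs0 i0)
      have h5 := ih (S.erase i0) (fun i => c i * (1 - ε i))
        (by
          have : (S.erase i0).card < S.card := card_erase_lt_of_mem hi0
          omega) hrel3 j (mem_erase.2 ⟨hne, hj⟩)
      rw [hεj] at h5
      rcases mul_eq_zero.1 h5 with h6 | h6
      · exact h6
      · exfalso
        norm_num at h6
    intro i hi
    by_contra hci
    have hrest : ∀ j ∈ S, j ≠ i → c j • s j = 0 := fun j hj hne => by
      rw [key i hi j hj hne, zero_smul]
    have h1 : ∑ j ∈ S, c j • s j = c i • s i := sum_eq_single_of_mem i hi hrest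
    rw [hrel] at h1
    rcases smul_eq_zero.1 h1.symm with h2 | h2
    · exact hci h2
    · exact hs0 i h2

end Pool.Agent.Q320.MF
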