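import Mathlib

set_option autoImplicit false

/-!
# Ring formulas with one existential quantifier
-/

namespace Pool.Agent.Q320.MF

open FirstOrder

/-- the formula `∃ z, P (v, z) = 0` -/
noncomputable def sqF {α : Type} (P : FreeCommRing (α ⊕ Fin 1)) : Language.ring.Formula α :=
  ((Language.Term.bdEqual (FirstOrder.Ring.termOfFreeCommRing P)
    (FirstOrder.Ring.termOfFreeCommRing (0 : FreeCommRing (α ⊕ Fin 1))) :
    Language.ring.BoundedFormula α 1)).ex

theorem realize_sqF {α K : Type} [Field K] [FirstOrder.Ring.CompatibleRing K]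
    (P : FreeCommRing (α ⊕ Fin 1)) (v : α → K) :
    (sqF P).Realize v ↔ ∃ z : K, FreeCommRing.lift (Sum.elim v (fun _ => z)) P = 0 := by
  unfold sqF Language.Formula.Realize
  rw [Language.BoundedFormula.realize_ex]
  refine exists_congr fun z => ?_
  rw [Language.BoundedFormula.realize_bdEqual, FirstOrder.Ring.realize_termOfFreeCommRing,
    FirstOrder.Ring.realize_termOfFreeCommRing, map_zero]
  have : (Fin.snoc (default : Fin 0 → K) z : Fin 1 → K) = fun _ => z := by
    funext i
    have hi : i = Fin.last 0 := Fin.ext (by omega)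
    rw [hi, Fin.snoc_last]
  rw [this]

end Pool.Agent.Q320.MF
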