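import Pool.Agent.Q320.MF.Ring
import Pool.Agent.Q320.MF.Kummer
import Pool.Agent.Q320.MF.Model
import Pool.Agent.W882.Nip3.Defs

set_option autoImplicit false

/-!
# Fields of meromorphic functions are not NIP, not `NIP_n` and not `NTP2`
-/

namespace Pool.Agent.Q320.MF

open Metric Complex Finset Filter Topology FirstOrder

variable {E : Set ℂ} {X A : Type} [CommRing A] [IsDomain A]

omit [IsDomain A] in
/-- the coordinate functions `z - w` -/
theorem exists_coord (R : FunRing E X A) :
    ∃ t : ℂ → A, ∀ w z x, R.ev (t w) (z, x) = z - w := by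
  have : ∀ w : ℂ, ∃ a : A, ∀ (z : E) (x : X), R.ev a (z, x) = z - w := fun w =>
    R.contains (fun z => z - w) (fun z _ => by fun_prop)
  choose t ht using this
  exact ⟨t, ht⟩

omit [IsDomain A] in
/-- the constants -/
theorem exists_const (R : FunRing E X A) : ∃ t : ℂ → A, ∀ w y, R.ev (t w) y = w := by
  have : ∀ w : ℂ, ∃ a : A, ∀ (z : E) (x : X), R.ev a (z, x) = w := fun w =>
    R.contains (fun _ => w) (fun z _ => analyticAt_const)
  choose t ht using this
  exact ⟨t, fun w y => ht w y.1 y.2⟩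

/-- few coordinate functions become squares in a finite extension -/
theorem bad_nodes (hE : IsPreconnected E) (hE2 : E.Nontrivial) (R : FunRing E X A)
    (t : ℂ → A) (ht : ∀ w z x, R.ev (t w) (z, x) = z - w)
    (L : Type) [Field L] [CharZero L] [Algebra A L] [IsFractionRing A L]
    (K : Type) [Field K] [Algebra L K] [FiniteDimensional L K] (B : Finset ℂ)
    (hB : ∀ w ∈ B, w ∈ E) (hsq : ∀ w ∈ B, ∃ r : K, r ^ 2 = algebraMap L K (algebraMap A L (t w))) :
    2 ^ B.card ≤ Module.finrank L K := by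
  classical
  have hinj : Function.Injective (algebraMap A L) := IsFractionRing.injective A L
  choose! r hr using hsq
  have ht0 : ∀ w, t w ≠ 0 := by
    intro w h
    obtain ⟨e, he, e1, he1, hne⟩ := hE2
    by_cases hX : Nonempty X
    · obtain ⟨x⟩ := hX
      have h1 := ht w ⟨e, he⟩ x
      have h2 := ht w ⟨e1, he1⟩ x
      rw [h, map_zero] at h1 h2
      simp only [Pi.zero_apply] at h1 h2
      exact hne (by linear_combination h2 - h1)
    · have : (1 : A) = 0 := by
        apply R.injective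
        funext y
        exact absurd ⟨y.2⟩ hX
      exact one_ne_zero this
  set ι := {T : Finset ℂ // T ∈ B.powerset} with hι
  have hind := sqrt_relation (L := L) (K := K) (ι := ι)
    (fun T => ∏ w ∈ T.1, r w) (fun T => algebraMap A L (∏ w ∈ T.1, t w))
    (fun T => by
      rw [← prod_pow, map_prod, map_prod]
      exact prod_congr rfl fun w hw => hr w (mem_powerset.1 T.2 hw))
    (fun T => by
      rw [Ne, map_eq_zero_iff _ hinj, prod_eq_zero_iff]
      rintro ⟨w, _, hw⟩
      exact ht0 w hw)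
    (fun T T' hne => by
      rintro ⟨y, hy⟩
      have hTT : (symmDiff T.1 T'.1).Nonempty := by
        rw [nonempty_iff_ne_empty]
        intro h
        have h1 : T.1 = T'.1 := by
          rw [← symmDiff_eq_bot]
          exact h
        exact hne (Subtype.ext h1)
      have hprod : (∏ w ∈ T.1, t w) * ∏ w ∈ T'.1, t w =
          (∏ w ∈ symmDiff T.1 T'.1, t w) * (∏ w ∈ T.1 ∩ T'.1, t w) ^ 2 := by
        rw [← prod_union_inter, sq, ← mul_assoc]
        congr 1
        have hd : Disjoint (symmDiff T.1 T'.1) (T.1 ∩ T'.1) := disjoint_symmDiff_inf T.1 T'.1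
        rw [← prod_union hd]
        congr 1
        exact (symmDiff_sup_inf T.1 T'.1).symm
      obtain ⟨b, a, ha, hba⟩ := IsFractionRing.div_surjective (A := A)
        (y / algebraMap A L (∏ w ∈ T.1 ∩ T'.1, t w))
      have ha0 : a ≠ 0 := nonZeroDivisors.ne_zero ha
      have hI0 : algebraMap A L (∏ w ∈ T.1 ∩ T'.1, t w) ≠ 0 := by
        rw [Ne, map_eq_zero_iff _ hinj, prod_eq_zero_iff]
        rintro ⟨w, _, hw⟩
        exact ht0 w hw
      have haL : algebraMap A L a ≠ 0 := by
        rw [Ne, map_eq_zero_iff _ hinj]; exact ha0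
      refine not_square hE hE2 R (symmDiff T.1 T'.1) hTT (fun w hw => ?_) t ht a b ha0 ?_
      · rcases mem_symmDiff.1 hw with h | h
        · exact hB w (mem_powerset.1 T.2 h.1)
        · exact hB w (mem_powerset.1 T'.2 h.1)
      · apply hinj
        rw [← map_mul, hprod, map_mul, map_pow] at hy
        rw [map_mul, map_pow, map_pow]
        have h1 : algebraMap A L b = y / algebraMap A L (∏ w ∈ T.1 ∩ T'.1, t w) *
            algebraMap A L a := by
          rw [← hba]; field_simp
        rw [h1]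
        have h2 : algebraMap A L (∏ w ∈ symmDiff T.1 T'.1, t w) =
            y ^ 2 / algebraMap A L (∏ w ∈ T.1 ∩ T'.1, t w) ^ 2 := by
          rw [← hy]; field_simp
        rw [h2]
        ring)
  have hli : LinearIndependent L (fun T : ι => ∏ w ∈ T.1, r w) := by
    rw [linearIndependent_iff']
    intro S g hg i hi
    exact hind S.card S g le_rfl hg i hi
  have h1 := hli.fintype_card_le_finrank
  have h2 : Fintype.card ι = 2 ^ B.card := by
    have h3 := Fintype.card_coe B.powerset
    rw [card_powerset] at h3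
    exact h3
  rw [← h2]
  exact h1

/-- The functions which realise all patterns: for every `M` there are `M` points, such that the
coordinate functions are not squares in `K`, and constants `T + 1, …, T + M` such that for every
set `S` some element `β` has the property that `β - (T + j + 1)` is a square exactly for
`j ∈ S`. -/
theorem blocks (hE : IsPreconnected E) (hE2 : E.Nontrivial) (hb : Bornology.IsBounded E)
    (R : FunRing E X A)
    (L : Type) [Field L] [Algebra A L] [IsFractionRing A L]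
    (K : Type) [Field K] [Algebra L K] [FiniteDimensional L K] (M : ℕ) :
    ∃ T : ℕ, ∀ S : Set (Fin M), ∃ β : K, ∀ j : Fin M,
      (∃ z : K, z ^ 2 = β - ((T + j + 1 : ℕ) : K)) ↔ j ∈ S := by
  classical
  have hinj : Function.Injective (algebraMap A L) := IsFractionRing.injective A L
  obtain ⟨t, ht⟩ := exists_coord R
  -- `X` is nonempty and the fields have characteristic zero
  have hX : Nonempty X := by
    by_contra hX
    have : (1 : A) = 0 := by
      apply R.injective
      funext y
      exact absurd ⟨y.2⟩ hX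
    exact one_ne_zero this
  obtain ⟨x0⟩ := hX
  obtain ⟨e, he⟩ := hE2.nonempty
  have hA0 : CharZero A := by
    refine ⟨fun a b hab => ?_⟩
    have h1 := congrFun (congrArg R.ev hab) (⟨e, he⟩, x0)
    rw [map_natCast, map_natCast] at h1
    simp only [Pi.natCast_apply] at h1
    exact_mod_cast h1
  have hL0 : CharZero L := charZero_of_injective_algebraMap hinj
  set D : ℕ := Module.finrank L K with hD
  set Ps : Finset (Fin (D * M) → ℝ) :=
    (univ : Finset (Finset (Fin (D * M)))).image (fun S j => if j ∈ S then (1 : ℝ) else 0) with hPs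
  obtain ⟨c0, ρ, w, hcl, hwinj, hwE, hpat⟩ := pattern E hE hE2 hb (D * M) Ps {0}
  -- a block without squares
  have hgood : ∃ tb : Fin D, ∀ j : Fin M, ¬ ∃ r : K,
      r ^ 2 = algebraMap L K (algebraMap A L (t (w (finProdFinEquiv (tb, j))))) := by
    by_contra hcon
    push Not at hcon
    choose s hs using hcon
    set B : Finset ℂ := univ.image (fun tb : Fin D => w (finProdFinEquiv (tb, s tb))) with hB
    have hcard : B.card = D := by
      rw [hB, card_image_of_injective, card_univ, Fintype.card_fin]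
      intro a b hab
      have h1 := finProdFinEquiv.injective (hwinj hab)
      exact congrArg Prod.fst h1
    have := bad_nodes hE hE2 R t ht L K B
      (fun v hv => by
        obtain ⟨tb, _, rfl⟩ := mem_image.1 hv
        exact hwE _)
      (fun v hv => by
        obtain ⟨tb, _, rfl⟩ := mem_image.1 hv
        exact hs tb)
    rw [hcard] at this
    exact absurd this (not_le.2 Nat.lt_two_pow_self)
  obtain ⟨tb, htb⟩ := hgood
  refine ⟨M * tb, fun S => ?_⟩
  -- the function
  set S' : Finset (Fin (D * M)) :=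
    univ.filter fun i => ∃ j ∈ S, i = finProdFinEquiv (tb, j) with hS'
  have hmem : ∀ j : Fin M, finProdFinEquiv (tb, j) ∈ S' ↔ j ∈ S := by
    intro j
    rw [hS', mem_filter]
    constructor
    · rintro ⟨_, j', hj', h⟩
      have h2 : j = j' := congrArg Prod.snd (finProdFinEquiv.injective h)
      rw [h2]
      exact hj'
    · intro h
      exact ⟨mem_univ _, j, h, rfl⟩
  obtain ⟨b, hbd, hb1, hb2, -⟩ := hpat (fun j => if j ∈ S' then (1 : ℝ) else 0)
    (mem_image.2 ⟨S', mem_univ _, rfl⟩)
  have lift : ∀ f : ℂ → ℂ, DifferentiableOn ℂ f (ball c0 ρ) →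
      ∃ a : A, ∀ (z : E) (x : X), R.ev a (z, x) = f z := fun f hf =>
    R.contains f fun z hz => (hf.analyticOnNhd isOpen_ball) z (hcl hz)
  obtain ⟨β, hβ⟩ := lift b hbd
  have hEb : ∀ z : E, (z : ℂ) ∈ ball c0 ρ := fun z => hcl (subset_closure z.2)
  have hnu : ∀ j : Fin M, nu0 (D * M) (finProdFinEquiv (tb, j)) = ((M * tb + j + 1 : ℕ) : ℂ) := by
    intro j
    unfold nu0
    rw [finProdFinEquiv_apply_val]
    push_cast
    ring
  refine ⟨algebraMap L K (algebraMap A L β), fun j => ?_⟩
  have hnat : ((M * tb + j + 1 : ℕ) : K) =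
      algebraMap L K (algebraMap A L ((M * tb + j + 1 : ℕ) : A)) := by
    rw [map_natCast, map_natCast]
  rw [hnat, ← map_sub, ← map_sub]
  constructor
  · rintro ⟨z, hz⟩
    by_contra hj
    obtain ⟨u, hu, hu2⟩ := hb1 (finProdFinEquiv (tb, j))
    obtain ⟨υ, hυ⟩ := lift u hu
    have hrel : β - ((M * tb + j + 1 : ℕ) : A) = t (w (finProdFinEquiv (tb, j))) * υ ^ 2 := by
      apply R.injective
      funext y
      rw [map_sub, map_natCast, map_mul, map_pow]
      simp only [Pi.sub_apply, Pi.mul_apply, Pi.pow_apply, Pi.natCast_apply]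
      have h1 := (hu2 y.1 (hEb y.1)).2
      rw [if_neg (fun h => hj ((hmem j).1 h)), hnu j] at h1
      rw [← Prod.mk.eta (p := y), hβ, hυ, ht, ← h1]
      simp
    have hυ0 : υ ≠ 0 := by
      intro h
      have h1 := hυ ⟨e, he⟩ x0
      rw [h, map_zero, Pi.zero_apply] at h1
      exact (hu2 e (hEb ⟨e, he⟩)).1 h1.symm
    have hυK : algebraMap L K (algebraMap A L υ) ≠ 0 := by
      rw [Ne, map_eq_zero_iff _ (algebraMap L K).injective, map_eq_zero_iff _ hinj]
      exact hυ0
    apply htb j
    refine ⟨z / algebraMap L K (algebraMap A L υ), ?_⟩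
    rw [div_pow, hz, hrel, map_mul, map_mul, map_pow, map_pow]
    field_simp
  · intro hj
    obtain ⟨u, hu, hu2⟩ := hb2 (finProdFinEquiv (tb, j)) 0 (mem_singleton_self _)
      (by rw [if_pos ((hmem j).2 hj)]; norm_num)
    obtain ⟨υ, hυ⟩ := lift u hu
    refine ⟨algebraMap L K (algebraMap A L υ), ?_⟩
    rw [← map_pow, ← map_pow]
    congr 2
    apply R.injective
    funext y
    rw [map_sub, map_natCast, map_pow]
    simp only [Pi.sub_apply, Pi.pow_apply, Pi.natCast_apply]
    have h1 := hu2 y.1 (hEb y.1)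
    rw [hnu j] at h1
    rw [← Prod.mk.eta (p := y), hβ, hυ, ← h1]
    simp

/-- not `NIP_n` -/
theorem not_nipn (hE : IsPreconnected E) (hE2 : E.Nontrivial) (hb : Bornology.IsBounded E)
    (R : FunRing E X A)
    (L : Type) [Field L] [Algebra A L] [IsFractionRing A L]
    (K : Type) [Field K] [FirstOrder.Ring.CompatibleRing K] [Algebra L K]
    [FiniteDimensional L K] (n : ℕ) : ¬ W882.Nip3.NIPnField n K := by
  intro h
  apply h 1 1 (sqF (FreeCommRing.of (Sum.inr 0) ^ 2 +
    ∑ k : Fin n, FreeCommRing.of (Sum.inl (Sum.inr (k, 0))) -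
    FreeCommRing.of (Sum.inl (Sum.inl 0))))
  intro m
  obtain ⟨T, hT⟩ := blocks hE hE2 hb R L K (m ^ n)
  refine ⟨fun k i _ => ((i * m ^ (k : ℕ) : ℕ) : K), fun S => ?_⟩
  obtain ⟨β, hβ⟩ := hT (finFunctionFinEquiv '' S)
  refine ⟨fun _ => β - ((T + 1 : ℕ) : K), fun i => ?_⟩
  have h1 := hβ (finFunctionFinEquiv i)
  rw [finFunctionFinEquiv.injective.mem_set_image] at h1
  rw [realize_sqF, ← h1]
  refine exists_congr fun z => ?_
  rw [map_sub, map_add, map_pow, map_sum]
  simp only [FreeCommRing.lift_of, Sum.elim_inr, Sum.elim_inl]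
  rw [finFunctionFinEquiv_apply]
  push_cast
  constructor
  · intro h; linear_combination h
  · intro h; linear_combination h

/-- not NIP -/
theorem not_nip (hE : IsPreconnected E) (hE2 : E.Nontrivial) (hb : Bornology.IsBounded E)
    (R : FunRing E X A)
    (L : Type) [Field L] [Algebra A L] [IsFractionRing A L]
    (K : Type) [Field K] [FirstOrder.Ring.CompatibleRing K] [Algebra L K]
    [FiniteDimensional L K] : ¬ W882.Nip3.NIPField K := by
  intro h
  obtain ⟨m, hm⟩ := h 1 1 (sqF (FreeCommRing.of (Sum.inr 0) ^ 2 +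
    FreeCommRing.of (Sum.inl (Sum.inl 0)) - FreeCommRing.of (Sum.inl (Sum.inr 0))))
  obtain ⟨T, hT⟩ := blocks hE hE2 hb R L K m
  choose β hβ using fun J : Finset (Fin m) => hT (J : Set (Fin m))
  obtain ⟨i, J, hiJ⟩ := hm (fun i _ => ((T + i + 1 : ℕ) : K)) (fun J _ => β J)
  apply hiJ
  have h1 := hβ J i
  rw [Finset.mem_coe] at h1
  rw [realize_sqF, ← h1]
  refine exists_congr fun z => ?_
  rw [map_sub, map_add, map_pow]
  simp only [FreeCommRing.lift_of, Sum.elim_inr, Sum.elim_inl]
  constructor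
  · intro h; linear_combination h
  · intro h; linear_combination h

/-- not `NTP2` -/
theorem not_ntp2 (hE : IsPreconnected E) (hE2 : E.Nontrivial) (hb : Bornology.IsBounded E)
    (R : FunRing E X A) (K : Type) [Field K] [FirstOrder.Ring.CompatibleRing K] [Algebra A K]
    [IsFractionRing A K] : ¬ W882.Nip3.NTP2Field K := by
  classical
  intro h
  have hinj : Function.Injective (algebraMap A K) := IsFractionRing.injective A K
  obtain ⟨t, ht⟩ := exists_coord R
  obtain ⟨κ, hκ⟩ := exists_const R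
  obtain ⟨m, hm⟩ := h 1 3
    (sqF (FreeCommRing.of (Sum.inl (Sum.inr 1)) * FreeCommRing.of (Sum.inr 0) ^ 2 +
      FreeCommRing.of (Sum.inl (Sum.inr 0)) - FreeCommRing.of (Sum.inl (Sum.inl 0))) ⊓
    sqF (FreeCommRing.of (Sum.inr 0) ^ 2 +
      FreeCommRing.of (Sum.inl (Sum.inr 2)) - FreeCommRing.of (Sum.inl (Sum.inl 0))))
  set Ps : Finset (Fin m → ℝ) :=
    (univ : Finset (Fin m → Fin m)).image (fun η i => ((η i : ℕ) : ℝ)) with hPs
  obtain ⟨c0, ρ, w, hcl, hwinj, hwE, hpat⟩ := pattern E hE hE2 hb m Ps ∅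
  have hEb : ∀ z : E, (z : ℂ) ∈ ball c0 ρ := fun z => hcl (subset_closure z.2)
  have lift : ∀ f : ℂ → ℂ, DifferentiableOn ℂ f (ball c0 ρ) →
      ∃ a : A, ∀ (z : E) (x : X), R.ev a (z, x) = f z := fun f hf =>
    R.contains f fun z hz => (hf.analyticOnNhd isOpen_ball) z (hcl hz)
  set d : ℂ := (((m : ℝ) + 2 + 1 : ℝ) : ℂ) with hd
  -- the realization of the formula
  have hreal : ∀ (x : Fin 1 → K) (a : Fin 3 → K),
      ((sqF (FreeCommRing.of (Sum.inl (Sum.inr 1)) * FreeCommRing.of (Sum.inr 0) ^ 2 +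
      FreeCommRing.of (Sum.inl (Sum.inr 0)) - FreeCommRing.of (Sum.inl (Sum.inl 0))) ⊓
    sqF (FreeCommRing.of (Sum.inr 0) ^ 2 +
      FreeCommRing.of (Sum.inl (Sum.inr 2)) - FreeCommRing.of (Sum.inl (Sum.inl 0))) :
      Language.ring.Formula (Fin 1 ⊕ Fin 3)).Realize (Sum.elim x a)) ↔
      (∃ z, a 1 * z ^ 2 + a 0 - x 0 = 0) ∧ ∃ z, z ^ 2 + a 2 - x 0 = 0 := by
    intro x a
    rw [Language.Formula.realize_inf, realize_sqF, realize_sqF]
    simp only [map_sub, map_add, map_mul, map_pow, FreeCommRing.lift_of, Sum.elim_inr,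
      Sum.elim_inl]
  obtain ⟨η, hη⟩ := hm (fun i j => ![algebraMap A K (κ (nu0 m i + I * ((((j : ℕ) : ℝ) : ℂ)))),
    algebraMap A K (t (w i)), algebraMap A K (κ d)]) (by
    intro i j j' hjj
    rintro ⟨x, h1, h2⟩
    rw [hreal] at h1 h2
    simp only [Matrix.cons_val_zero, Matrix.cons_val_one, Matrix.cons_val] at h1 h2
    obtain ⟨⟨z1, hz1⟩, ⟨z3, hz3⟩⟩ := h1
    obtain ⟨⟨z2, hz2⟩, -⟩ := h2
    obtain ⟨p1, s1, hs1, h1⟩ := IsFractionRing.div_surjective (A := A) z1
    obtain ⟨p2, s2, hs2, h2⟩ := IsFractionRing.div_surjective (A := A) z2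
    obtain ⟨p3, s3, hs3, h3⟩ := IsFractionRing.div_surjective (A := A) z3
    have hs1' : s1 ≠ 0 := nonZeroDivisors.ne_zero hs1
    have hs2' : s2 ≠ 0 := nonZeroDivisors.ne_zero hs2
    have hs3' : s3 ≠ 0 := nonZeroDivisors.ne_zero hs3
    have hS1 : algebraMap A K s1 ≠ 0 := by rw [Ne, map_eq_zero_iff _ hinj]; exact hs1'
    have hS2 : algebraMap A K s2 ≠ 0 := by rw [Ne, map_eq_zero_iff _ hinj]; exact hs2'
    have hS3 : algebraMap A K s3 ≠ 0 := by rw [Ne, map_eq_zero_iff _ hinj]; exact hs3'
    refine inconsistent hE hE2 R (hwE i) (t (w i)) (ht (w i))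
      (κ d - κ (nu0 m i + I * ((((j : ℕ) : ℝ) : ℂ))))
      (κ d - κ (nu0 m i + I * ((((j' : ℕ) : ℝ) : ℂ))))
      (d - (nu0 m i + I * ((((j : ℕ) : ℝ) : ℂ)))) (d - (nu0 m i + I * ((((j' : ℕ) : ℝ) : ℂ))))
      (fun y => ?_) (fun y => ?_) ?_ (s1 * s2 * s3) (p3 * s1 * s2) (p1 * s2 * s3) (p2 * s1 * s3)
      (mul_ne_zero (mul_ne_zero hs1' hs2') hs3') ?_ ?_
    · rw [map_sub, Pi.sub_apply, hκ, hκ]
    · rw [map_sub, Pi.sub_apply, hκ, hκ]
    · intro heq
      apply hjj
      have h4 : I * ((((j : ℕ) : ℝ) : ℂ)) = I * ((((j' : ℕ) : ℝ) : ℂ)) := by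
        linear_combination -heq
      have h5 := mul_left_cancel₀ I_ne_zero h4
      exact Fin.ext (by exact_mod_cast h5)
    · apply hinj
      simp only [map_add, map_mul, map_pow, map_sub]
      rw [← h1] at hz1
      rw [← h3] at hz3
      have e1 : algebraMap A K p3 ^ 2 + (algebraMap A K (κ d) -
          algebraMap A K (κ (nu0 m i + I * ((((j : ℕ) : ℝ) : ℂ))))) * algebraMap A K s3 ^ 2 =
          algebraMap A K (t (w i)) * (algebraMap A K p1 / algebraMap A K s1) ^ 2 *
            algebraMap A K s3 ^ 2 := by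
        have h6 : algebraMap A K p3 = algebraMap A K p3 / algebraMap A K s3 * algebraMap A K s3 := by
          field_simp
        rw [h6]
        linear_combination (algebraMap A K s3 ^ 2) * (hz3 - hz1)
      have h7 : algebraMap A K p1 = algebraMap A K p1 / algebraMap A K s1 * algebraMap A K s1 := by
        field_simp
      rw [h7]
      linear_combination (algebraMap A K s1 ^ 2 * algebraMap A K s2 ^ 2) * e1
    · apply hinj
      simp only [map_add, map_mul, map_pow, map_sub]
      rw [← h2] at hz2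
      rw [← h3] at hz3
      have e1 : algebraMap A K p3 ^ 2 + (algebraMap A K (κ d) -
          algebraMap A K (κ (nu0 m i + I * ((((j' : ℕ) : ℝ) : ℂ))))) * algebraMap A K s3 ^ 2 =
          algebraMap A K (t (w i)) * (algebraMap A K p2 / algebraMap A K s2) ^ 2 *
            algebraMap A K s3 ^ 2 := by
        have h6 : algebraMap A K p3 = algebraMap A K p3 / algebraMap A K s3 * algebraMap A K s3 := by
          field_simp
        rw [h6]
        linear_combination (algebraMap A K s3 ^ 2) * (hz3 - hz2)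
      have h7 : algebraMap A K p2 = algebraMap A K p2 / algebraMap A K s2 * algebraMap A K s2 := by
        field_simp
      rw [h7]
      linear_combination (algebraMap A K s1 ^ 2 * algebraMap A K s2 ^ 2) * e1)
  apply hη
  obtain ⟨b, hbd, hb1, -, hb3⟩ := hpat (fun i => ((η i : ℕ) : ℝ))
    (mem_image.2 ⟨η, mem_univ _, rfl⟩)
  obtain ⟨β, hβ⟩ := lift b hbd
  refine ⟨fun _ => algebraMap A K β, fun i => ?_⟩
  rw [hreal]
  simp only [Matrix.cons_val_zero, Matrix.cons_val_one, Matrix.cons_val]
  constructor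
  · obtain ⟨u, hu, hu2⟩ := hb1 i
    obtain ⟨υ, hυ⟩ := lift u hu
    refine ⟨algebraMap A K υ, ?_⟩
    rw [← map_pow, ← map_mul, ← map_add, ← map_sub, map_eq_zero_iff _ hinj]
    apply R.injective
    funext y
    rw [map_zero, map_sub, map_add, map_mul, map_pow]
    simp only [Pi.sub_apply, Pi.add_apply, Pi.mul_apply, Pi.pow_apply, Pi.zero_apply]
    have h1 := (hu2 y.1 (hEb y.1)).2
    rw [hκ, ← Prod.mk.eta (p := y), hβ, hυ, ht]
    linear_combination -h1
  · obtain ⟨u, hu, hu2⟩ := hb3
    obtain ⟨υ, hυ⟩ := lift u hu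
    refine ⟨algebraMap A K υ, ?_⟩
    rw [← map_pow, ← map_add, ← map_sub, map_eq_zero_iff _ hinj]
    apply R.injective
    funext y
    rw [map_zero, map_sub, map_add, map_pow]
    simp only [Pi.sub_apply, Pi.add_apply, Pi.pow_apply, Pi.zero_apply]
    have h1 := hu2 y.1 (hEb y.1)
    rw [hκ, ← Prod.mk.eta (p := y), hβ, hυ]
    linear_combination -h1

end Pool.Agent.Q320.MF
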