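import Mathlib

set_option autoImplicit false

/-!
# Holomorphic square roots on discs
-/

namespace Pool.Agent.Q320.MF

open Metric Complex

/-- A holomorphic function without zeros on a disc has a holomorphic square root. -/
theorem exists_sqrt {c : ℂ} {r : ℝ} {f : ℂ → ℂ} (hf : DifferentiableOn ℂ f (ball c r))
    (h0 : ∀ z ∈ ball c r, f z ≠ 0) :
    ∃ g : ℂ → ℂ, DifferentiableOn ℂ g (ball c r) ∧ ∀ z ∈ ball c r, g z ^ 2 = f z := by
  by_cases hr : 0 < r
  swap
  · refine ⟨f, hf, fun z hz => ?_⟩
    exact absurd (pos_of_mem_ball hz) hr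
  have hd : DifferentiableOn ℂ (fun z => deriv f z / f z) (ball c r) :=
    (hf.deriv isOpen_ball).div hf h0
  obtain ⟨F, hF⟩ := hd.isExactOn_ball
  have hcm : c ∈ ball c r := mem_ball_self hr
  have hconst : ∀ z ∈ ball c r, f z * exp (-F z) = f c * exp (-F c) := by
    intro z hz
    refine isOpen_ball.is_const_of_deriv_eq_zero (convex_ball c r).isPreconnected
      (f := fun z => f z * exp (-F z)) ?_ ?_ hz hcm
    · intro w hw
      exact ((hf.differentiableAt (isOpen_ball.mem_nhds hw)).mul
        ((hF w hw).differentiableAt.neg.cexp)).differentiableWithinAt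
    · intro w hw
      have h1 : HasDerivAt f (deriv f w) w :=
        (hf.differentiableAt (isOpen_ball.mem_nhds hw)).hasDerivAt
      have h2 := h1.mul ((hF w hw).neg.cexp)
      have h3 : deriv (fun z => f z * exp (-F z)) w =
          deriv f w * exp (-F w) + f w * (exp (-F w) * -(deriv f w / f w)) := h2.deriv
      rw [h3]
      have := h0 w hw
      simp only [Pi.zero_apply]
      field_simp
      ring
  obtain ⟨s, hs⟩ := IsAlgClosed.exists_pow_nat_eq (f c * exp (-F c)) (n := 2) (by norm_num)
  refine ⟨fun z => s * exp (F z / 2), ?_, fun z hz => ?_⟩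
  · intro w hw
    exact ((differentiableAt_const s).mul
      ((hF w hw).differentiableAt.div_const 2).cexp).differentiableWithinAt
  · rw [mul_pow, hs, ← hconst z hz, ← exp_nat_mul]
    have : ((2 : ℕ) : ℂ) * (F z / 2) = F z := by push_cast; ring
    rw [this, mul_assoc, ← exp_add]
    simp

end Pool.Agent.Q320.MF
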