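import Pool.Agent.Q320.MF.Chart
import Pool.Agent.Q320.MF.Sqrt

set_option autoImplicit false

/-!
# Functions with prescribed square classes of their differences with constants
-/

namespace Pool.Agent.Q320.MF

open Metric Complex Finset

theorem exists_uniform {ι : Type} (s : Finset ι) (f : ι → ℝ) (hf : ∀ i, 0 < f i) :
    ∃ δ : ℝ, 0 < δ ∧ δ ≤ 1 / 4 ∧ ∀ i ∈ s, δ ≤ f i := by
  classical
  induction s using Finset.induction_on with
  | empty => exact ⟨1 / 4, by norm_num, le_refl _, fun i hi => absurd hi (notMem_empty i)⟩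
  | insert a s ha ih =>
    obtain ⟨δ, h1, h2, h3⟩ := ih
    refine ⟨min δ (f a), lt_min h1 (hf a), (min_le_left _ _).trans h2, fun i hi => ?_⟩
    rcases mem_insert.1 hi with rfl | hi
    · exact min_le_right _ _
    · exact (min_le_left _ _).trans (h3 i hi)

theorem differentiable_Qf {n : ℕ} (c ν : Fin n → ℂ) : Differentiable ℂ (Qf c ν) := by
  unfold Qf
  refine differentiable_id.add ?_
  refine Differentiable.fun_sum fun i _ => ?_
  refine (differentiable_const _).mul ?_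
  refine Differentiable.fun_finsetProd fun k _ => ?_
  exact (differentiable_id.sub_const _).div_const _

theorem differentiable_DD {n : ℕ} (c ν : Fin n → ℂ) (j : Fin n) : Differentiable ℂ (DD c ν j) := by
  unfold DD
  refine (differentiable_const _).add ?_
  refine Differentiable.fun_sum fun i _ => ?_
  refine (differentiable_const _).mul ?_
  refine (differentiable_const _).mul ?_
  refine Differentiable.fun_finsetProd fun k _ => ?_
  exact (differentiable_id.sub_const _).div_const _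

theorem pattern (E : Set ℂ) (hE : IsPreconnected E) (hE2 : E.Nontrivial)
    (hb : Bornology.IsBounded E) (n : ℕ) (Ps : Finset (Fin n → ℝ)) (Qs : Finset ℝ) :
    ∃ (e : ℂ) (ρ : ℝ) (w : Fin n → ℂ), closure E ⊆ ball e ρ ∧ Function.Injective w ∧
      (∀ i, w i ∈ E) ∧ ∀ p ∈ Ps, ∃ b : ℂ → ℂ, DifferentiableOn ℂ b (ball e ρ) ∧
        (∀ j, ∃ u : ℂ → ℂ, DifferentiableOn ℂ u (ball e ρ) ∧
          ∀ z ∈ ball e ρ, u z ≠ 0 ∧
            b z - (nu0 n j + I * (p j : ℂ)) = (z - w j) * u z ^ 2) ∧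
        (∀ j, ∀ q ∈ Qs, q ≠ p j → ∃ u : ℂ → ℂ, DifferentiableOn ℂ u (ball e ρ) ∧
          ∀ z ∈ ball e ρ, b z - (nu0 n j + I * (q : ℂ)) = u z ^ 2) ∧
        ∃ u : ℂ → ℂ, DifferentiableOn ℂ u (ball e ρ) ∧
          ∀ z ∈ ball e ρ, b z - (((n : ℝ) + 2 + 1 : ℝ) : ℂ) = u z ^ 2 := by
  choose δf hδf hnear using fun p : Fin n → ℝ => near p ((n : ℝ) + 2) Qs
  obtain ⟨δ, hδ0, hδ4, hδ⟩ := exists_uniform Ps δf hδf
  obtain ⟨e, ρ, h, w, hcl, hdiff, hwE, hrect, hnode, hinj, hder⟩ := chart E hE hE2 hb n δ hδ0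
  have hwb : ∀ i, w i ∈ ball e ρ := fun i => hcl (subset_closure (hwE i))
  have hνinj : Function.Injective fun i => h (w i) := by
    intro i j hij
    simp only at hij
    by_contra hne
    have h1 : nu0 n i - nu0 n j = (h (w j) - nu0 n j) - (h (w i) - nu0 n i) := by
      rw [hij]; ring
    have h2 : ‖nu0 n i - nu0 n j‖ ≤ 1 / 2 := by
      rw [h1]
      refine (norm_sub_le _ _).trans ?_
      linarith [hnode i, hnode j]
    have h3 : nu0 n i - nu0 n j = ((((i : ℕ) : ℤ) - ((j : ℕ) : ℤ) : ℤ) : ℂ) := by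
      unfold nu0; push_cast; ring
    rw [h3, Complex.norm_intCast] at h2
    have h4 : |(((i : ℕ) : ℤ) - ((j : ℕ) : ℤ) : ℤ)| < 1 := by
      have : ((|(((i : ℕ) : ℤ) - ((j : ℕ) : ℤ) : ℤ)| : ℤ) : ℝ) ≤ 1 / 2 := by
        rw [Int.cast_abs]; exact h2
      have h5 : ((|(((i : ℕ) : ℤ) - ((j : ℕ) : ℤ) : ℤ)| : ℤ) : ℝ) < ((1 : ℤ) : ℝ) := by
        push_cast at this ⊢
        linarith
      exact_mod_cast h5
    rw [Int.abs_lt_one_iff] at h4
    apply hne
    exact Fin.ext (by omega)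
  have hwinj : Function.Injective w := fun i j hij => hνinj (by simp only [hij])
  refine ⟨e, ρ, w, hcl, hwinj, hwE, fun p hp => ?_⟩
  set ν : Fin n → ℂ := fun i => h (w i) with hν
  have hgood : ∀ z ∈ ball e ρ, (∀ j, DD (cv p) ν j (h z) ≠ 0) ∧
      (∀ j, ∀ q ∈ Qs, q ≠ p j → Qf (cv p) ν (h z) ≠ nu0 n j + Complex.I * (q : ℂ)) ∧
      Qf (cv p) ν (h z) ≠ (((n : ℝ) + 2 + 1 : ℝ) : ℂ) := by
    intro z hz
    exact hnear p ν (fun i => (hnode i).trans (hδ p hp)) (h z) (hrect z hz).1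
      ((hrect z hz).2.trans (hδ p hp))
  have hbd : DifferentiableOn ℂ (fun z => Qf (cv p) ν (h z)) (ball e ρ) :=
    (differentiable_Qf _ _).comp_differentiableOn hdiff
  refine ⟨fun z => Qf (cv p) ν (h z), hbd, fun j => ?_, fun j q hq hqp => ?_, ?_⟩
  · have hk : DifferentiableOn ℂ (fun z => dslope h (w j) z * DD (cv p) ν j (h z)) (ball e ρ) := by
      refine DifferentiableOn.mul ?_ ((differentiable_DD _ _ _).comp_differentiableOn hdiff)
      exact (Complex.differentiableOn_dslope (isOpen_ball.mem_nhds (hwb j))).2 hdiff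
    have hk0 : ∀ z ∈ ball e ρ, dslope h (w j) z * DD (cv p) ν j (h z) ≠ 0 := by
      intro z hz
      refine mul_ne_zero ?_ ((hgood z hz).1 j)
      by_cases hzw : z = w j
      · rw [hzw, dslope_same]
        exact hder _ (hwb j)
      · rw [dslope_of_ne _ hzw, slope_def_field]
        refine div_ne_zero ?_ (sub_ne_zero.2 hzw)
        exact sub_ne_zero.2 fun heq => hzw (hinj hz (hwb j) heq)
    obtain ⟨u, hu, hu2⟩ := exists_sqrt hk hk0
    refine ⟨u, hu, fun z hz => ⟨fun h0 => hk0 z hz ?_, ?_⟩⟩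
    · rw [← hu2 z hz, h0]; norm_num
    rw [hu2 z hz]
    have h1 := Qf_sub (cv p) ν hνinj j (h z)
    have h2 : cv p j = nu0 n j + I * (p j : ℂ) := rfl
    rw [h2] at h1
    rw [h1]
    have h3 : (z - w j) * dslope h (w j) z = h z - h (w j) := by
      have := sub_smul_dslope h (w j) z
      simpa using this
    rw [← mul_assoc, h3]
  · obtain ⟨u, hu, hu2⟩ := exists_sqrt
      (f := fun z => Qf (cv p) ν (h z) - (nu0 n j + I * (q : ℂ)))
      (hbd.sub_const _) (fun z hz => sub_ne_zero.2 ((hgood z hz).2.1 j q hq hqp))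
    exact ⟨u, hu, fun z hz => (hu2 z hz).symm⟩
  · obtain ⟨u, hu, hu2⟩ := exists_sqrt
      (f := fun z => Qf (cv p) ν (h z) - (((n : ℝ) + 2 + 1 : ℝ) : ℂ))
      (hbd.sub_const _) (fun z hz => sub_ne_zero.2 ((hgood z hz).2.2))
    exact ⟨u, hu, fun z hz => (hu2 z hz).symm⟩

end Pool.Agent.Q320.MF
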