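import Pool.Agent.Q320.MF.Pattern

set_option autoImplicit false

/-!
# Rings of holomorphic functions on a bounded connected set
-/

namespace Pool.Agent.Q320.MF

open Metric Complex Finset Filter Topology

/-- `A` is (identified by `ev` with) a ring of complex functions `f (z, x)` of a point `z` of the
plane set `E` and a parameter `x`, which are holomorphic in `z` on a neighbourhood of `E` (which
may depend on `f` and `x`), and it contains all functions of `z` alone which are holomorphic on a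
neighbourhood of the closure of `E`. -/
structure FunRing (E : Set ℂ) (X A : Type) [CommRing A] where
  ev : A →+* (E × X → ℂ)
  injective : Function.Injective ev
  holomorphic : ∀ (a : A) (x : X), ∃ F : ℂ → ℂ, AnalyticOnNhd ℂ F E ∧ ∀ z : E, ev a (z, x) = F z
  contains : ∀ F : ℂ → ℂ, AnalyticOnNhd ℂ F (closure E) →
    ∃ a : A, ∀ (z : E) (x : X), ev a (z, x) = F z

variable {E : Set ℂ} {X A : Type} [CommRing A]

theorem local_eq (hE : IsPreconnected E) (hE2 : E.Nontrivial) {F G : ℂ → ℂ}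
    (hF : AnalyticOnNhd ℂ F E) (hG : AnalyticOnNhd ℂ G E) (h : ∀ z ∈ E, F z = G z) {w : ℂ}
    (hw : w ∈ E) : F =ᶠ[𝓝 w] G := by
  have h1 : AccPt w (𝓟 E) := hE.preperfect_of_nontrivial hE2 w hw
  rw [accPt_iff_frequently_nhdsNE] at h1
  exact ((hF w hw).frequently_eq_iff_eventually_eq (hG w hw)).1 (h1.mono fun y hy => h y hy)

theorem order_ne_top (hE : IsPreconnected E) {F : ℂ → ℂ} (hF : AnalyticOnNhd ℂ F E) {z w : ℂ}
    (hz : z ∈ E) (hw : w ∈ E) (hFz : F z ≠ 0) : analyticOrderAt F w ≠ ⊤ := by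
  intro h
  rw [analyticOrderAt_eq_top] at h
  exact hFz (hF.eqOn_zero_of_preconnected_of_eventuallyEq_zero hE hw h hz)

theorem order_sub (w : ℂ) : analyticOrderAt (fun z : ℂ => z - w) w = 1 := by
  have h : AnalyticAt ℂ (fun z : ℂ => z - w) w := by fun_prop
  exact (h.analyticOrderAt_eq_natCast (n := 1)).2
    ⟨fun _ => 1, analyticAt_const, one_ne_zero, Eventually.of_forall fun z => by simp⟩

theorem order_prod (T : Finset ℂ) (w : ℂ) (hw : w ∈ T) :
    analyticOrderAt (fun z : ℂ => ∏ v ∈ T, (z - v)) w = 1 := by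
  have h : AnalyticAt ℂ (fun z : ℂ => ∏ v ∈ T, (z - v)) w := by fun_prop
  have := (h.analyticOrderAt_eq_natCast (n := 1)).2
    ⟨fun z => ∏ v ∈ T.erase w, (z - v), by fun_prop, ?_, Eventually.of_forall fun z => ?_⟩
  · simpa using this
  · refine prod_ne_zero_iff.2 fun v hv => sub_ne_zero.2 (ne_of_mem_erase hv).symm
  · rw [pow_one, smul_eq_mul, mul_prod_erase T _ hw]

theorem ev_ne_zero (R : FunRing E X A) {a : A} (ha : a ≠ 0) : ∃ z : E, ∃ x, R.ev a (z, x) ≠ 0 := by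
  by_contra h
  push Not at h
  apply ha
  apply R.injective
  rw [map_zero]
  funext y
  exact h y.1 y.2

/-- a product of distinct coordinate functions is not a square in the field of fractions -/
theorem not_square (hE : IsPreconnected E) (hE2 : E.Nontrivial) (R : FunRing E X A)
    (T : Finset ℂ) (hT : T.Nonempty) (hTE : ∀ w ∈ T, w ∈ E) (t : ℂ → A)
    (ht : ∀ w z x, R.ev (t w) (z, x) = z - w) (a b : A) (ha : a ≠ 0)
    (h : (∏ w ∈ T, t w) * a ^ 2 = b ^ 2) : False := by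
  obtain ⟨w, hwT⟩ := hT
  have hw := hTE w hwT
  obtain ⟨z1, x, hz1⟩ := ev_ne_zero R ha
  obtain ⟨F, hF, hF2⟩ := R.holomorphic a x
  obtain ⟨G, hG, hG2⟩ := R.holomorphic b x
  have hFt : analyticOrderAt F w ≠ ⊤ := order_ne_top hE hF z1.2 hw (by rw [← hF2]; exact hz1)
  have heq : ∀ z ∈ E, (∏ v ∈ T, (z - v)) * F z ^ 2 = G z ^ 2 := by
    intro z hz
    have h1 := congrFun (congrArg R.ev h) (⟨z, hz⟩, x)
    simp only [map_mul, map_pow, map_prod, Pi.mul_apply, Pi.pow_apply, Finset.prod_apply, ht,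
      hF2, hG2] at h1
    exact h1
  have hP : AnalyticOnNhd ℂ (fun z : ℂ => ∏ v ∈ T, (z - v)) E := fun z _ => by fun_prop
  have hloc := local_eq hE hE2 (F := (fun z : ℂ => ∏ v ∈ T, (z - v)) * F ^ 2) (G := G ^ 2)
    (hP.mul (hF.pow 2)) (hG.pow 2) (fun z hz => heq z hz) hw
  have hord := analyticOrderAt_congr hloc
  rw [analyticOrderAt_mul (hP w hw) ((hF w hw).pow 2), analyticOrderAt_pow (hF w hw),
    analyticOrderAt_pow (hG w hw), order_prod T w hwT] at hord
  obtain ⟨α, hα⟩ := ENat.ne_top_iff_exists.1 hFt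
  rw [← hα] at hord
  cases hβ : analyticOrderAt G w with
  | top =>
    rw [hβ] at hord
    have : (1 : ℕ∞) + 2 • (α : ℕ∞) = ((1 + 2 * α : ℕ) : ℕ∞) := by push_cast; rw [nsmul_eq_mul]; rfl
    have h5 : (2 : ℕ) • (⊤ : ℕ∞) = ⊤ := by
      rw [nsmul_eq_mul]; exact ENat.mul_top (by norm_num)
    rw [this, h5] at hord
    exact ENat.coe_ne_top _ hord
  | coe β =>
    rw [hβ] at hord
    have h2 : ((1 + 2 * α : ℕ) : ℕ∞) = ((2 * β : ℕ) : ℕ∞) := by
      push_cast
      rw [nsmul_eq_mul, nsmul_eq_mul] at hord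
      exact hord
    have h3 : 1 + 2 * α = 2 * β := by exact_mod_cast h2
    omega

/-- The rows of the array are inconsistent. -/
theorem inconsistent (hE : IsPreconnected E) (hE2 : E.Nontrivial) (R : FunRing E X A)
    {w : ℂ} (hw : w ∈ E) (t : A) (ht : ∀ z x, R.ev t (z, x) = z - w) (κ κ' : A) (k k' : ℂ)
    (hκ : ∀ y, R.ev κ y = k) (hκ' : ∀ y, R.ev κ' y = k') (hkk : k ≠ k')
    (s q p p' : A) (hs : s ≠ 0) (h : q ^ 2 + κ * s ^ 2 = t * p ^ 2)
    (h' : q ^ 2 + κ' * s ^ 2 = t * p' ^ 2) : False := by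
  obtain ⟨z1, x, hz1⟩ := ev_ne_zero R hs
  obtain ⟨S, hS, hS2⟩ := R.holomorphic s x
  obtain ⟨Q, hQ, hQ2⟩ := R.holomorphic q x
  obtain ⟨P, hP, hP2⟩ := R.holomorphic p x
  obtain ⟨P', hP', hP'2⟩ := R.holomorphic p' x
  have hSt : analyticOrderAt S w ≠ ⊤ := order_ne_top hE hS z1.2 hw (by rw [← hS2]; exact hz1)
  have hT : AnalyticOnNhd ℂ (fun z : ℂ => z - w) E := fun z _ => by fun_prop
  have hk0 : AnalyticOnNhd ℂ (fun _ : ℂ => k) E := fun z _ => analyticAt_const
  have hk1 : AnalyticOnNhd ℂ (fun _ : ℂ => k') E := fun z _ => analyticAt_const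
  have e1 : Q ^ 2 + (fun _ => k) * S ^ 2 =ᶠ[𝓝 w] (fun z : ℂ => z - w) * P ^ 2 := by
    refine local_eq hE hE2 ((hQ.pow 2).add (hk0.mul (hS.pow 2))) (hT.mul (hP.pow 2)) ?_ hw
    intro z hz
    have h1 := congrFun (congrArg R.ev h) (⟨z, hz⟩, x)
    simp only [map_mul, map_pow, map_add, Pi.mul_apply, Pi.pow_apply, Pi.add_apply, ht, hκ,
      hQ2, hS2, hP2] at h1
    exact h1
  have e2 : Q ^ 2 + (fun _ => k') * S ^ 2 =ᶠ[𝓝 w] (fun z : ℂ => z - w) * P' ^ 2 := by
    refine local_eq hE hE2 ((hQ.pow 2).add (hk1.mul (hS.pow 2))) (hT.mul (hP'.pow 2)) ?_ hw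
    intro z hz
    have h1 := congrFun (congrArg R.ev h') (⟨z, hz⟩, x)
    simp only [map_mul, map_pow, map_add, Pi.mul_apply, Pi.pow_apply, Pi.add_apply, ht, hκ',
      hQ2, hS2, hP'2] at h1
    exact h1
  -- orders
  have o1 := analyticOrderAt_congr e1
  have o2 := analyticOrderAt_congr e2
  rw [analyticOrderAt_mul (hT w hw) ((hP w hw).pow 2), analyticOrderAt_pow (hP w hw),
    order_sub] at o1
  rw [analyticOrderAt_mul (hT w hw) ((hP' w hw).pow 2), analyticOrderAt_pow (hP' w hw),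
    order_sub] at o2
  obtain ⟨β, hβ⟩ := ENat.ne_top_iff_exists.1 hSt
  have hks : ∀ l : ℂ, ((2 * β : ℕ) : ℕ∞) ≤ analyticOrderAt ((fun _ => l) * S ^ 2) w := by
    intro l
    rw [analyticOrderAt_mul analyticAt_const ((hS w hw).pow 2), analyticOrderAt_pow (hS w hw),
      ← hβ]
    have : (2 : ℕ) • (β : ℕ∞) = ((2 * β : ℕ) : ℕ∞) := by push_cast; rw [nsmul_eq_mul]; rfl
    rw [this]
    exact le_add_self
  by_cases hcase : analyticOrderAt Q w < β
  · -- the order of `Q` is finite and small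
    obtain ⟨α, hα⟩ := ENat.ne_top_iff_exists.1 (ne_top_of_lt hcase)
    rw [← hα] at hcase
    have hαβ : α < β := by exact_mod_cast hcase
    have hQo : analyticOrderAt (Q ^ 2) w = ((2 * α : ℕ) : ℕ∞) := by
      rw [analyticOrderAt_pow (hQ w hw), ← hα]
      push_cast; rw [nsmul_eq_mul]; rfl
    have hlt : analyticOrderAt (Q ^ 2) w < analyticOrderAt ((fun _ => k) * S ^ 2) w := by
      rw [hQo]
      refine lt_of_lt_of_le ?_ (hks k)
      exact_mod_cast (by omega : 2 * α < 2 * β)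
    rw [analyticOrderAt_add_eq_left_of_lt hlt, hQo] at o1
    cases hγ : analyticOrderAt P w with
    | top =>
      rw [hγ] at o1
      have h5 : (2 : ℕ) • (⊤ : ℕ∞) = ⊤ := by
        rw [nsmul_eq_mul]; exact ENat.mul_top (by norm_num)
      rw [h5, add_top] at o1
      exact ENat.coe_ne_top _ o1
    | coe γ =>
      rw [hγ] at o1
      have h2 : ((2 * α : ℕ) : ℕ∞) = ((1 + 2 * γ : ℕ) : ℕ∞) := by
        rw [o1]
        push_cast
        rw [nsmul_eq_mul]; rfl
      have h3 : 2 * α = 1 + 2 * γ := by exact_mod_cast h2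
      omega
  · rw [not_lt] at hcase
    have hQo : ((2 * β : ℕ) : ℕ∞) ≤ analyticOrderAt (Q ^ 2) w := by
      rw [analyticOrderAt_pow (hQ w hw)]
      have h1 : (2 : ℕ) • (β : ℕ∞) = ((2 * β : ℕ) : ℕ∞) := by push_cast; rw [nsmul_eq_mul]; rfl
      rw [← h1]
      exact nsmul_le_nsmul_right hcase 2
    have hge : ∀ l : ℂ, ((2 * β : ℕ) : ℕ∞) ≤ analyticOrderAt (Q ^ 2 + (fun _ => l) * S ^ 2) w :=
      fun l => (le_min hQo (hks l)).trans le_analyticOrderAt_add
    have hPo : ∀ {P : ℂ → ℂ}, ((2 * β : ℕ) : ℕ∞) ≤ 1 + 2 • analyticOrderAt P w →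
        (β : ℕ∞) ≤ analyticOrderAt P w := by
      intro P hP
      cases hγ : analyticOrderAt P w with
      | top => exact le_top
      | coe γ =>
        rw [hγ] at hP
        have h2 : ((2 * β : ℕ) : ℕ∞) ≤ ((1 + 2 * γ : ℕ) : ℕ∞) := by
          refine hP.trans (le_of_eq ?_)
          push_cast
          rw [nsmul_eq_mul]; rfl
        have h3 : 2 * β ≤ 1 + 2 * γ := by exact_mod_cast h2
        exact_mod_cast (by omega : β ≤ γ)
    have hPβ : (β : ℕ∞) ≤ analyticOrderAt P w := hPo (by rw [← o1]; exact hge k)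
    have hP'β : (β : ℕ∞) ≤ analyticOrderAt P' w := hPo (by rw [← o2]; exact hge k')
    have e3 : (fun _ => k - k') * S ^ 2 =ᶠ[𝓝 w]
        (fun z : ℂ => z - w) * (P ^ 2 - P' ^ 2) := by
      filter_upwards [e1, e2] with z h1 h2
      simp only [Pi.mul_apply, Pi.pow_apply, Pi.add_apply, Pi.sub_apply] at h1 h2 ⊢
      linear_combination h1 - h2
    have o3 := analyticOrderAt_congr e3
    rw [analyticOrderAt_mul analyticAt_const ((hS w hw).pow 2),
      analyticOrderAt_mul (hT w hw) (((hP w hw).pow 2).sub ((hP' w hw).pow 2)), order_sub,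
      analyticOrderAt_pow (hS w hw), ← hβ] at o3
    have h0 : analyticOrderAt (fun _ : ℂ => k - k') w = 0 :=
      analyticOrderAt_eq_zero.2 (Or.inr (sub_ne_zero.2 hkk))
    have h1 : (2 : ℕ) • (β : ℕ∞) = ((2 * β : ℕ) : ℕ∞) := by push_cast; rw [nsmul_eq_mul]; rfl
    rw [h0, zero_add, h1] at o3
    have h2 : ((2 * β : ℕ) : ℕ∞) ≤ analyticOrderAt (P ^ 2 - P' ^ 2) w := by
      refine le_trans (le_min ?_ ?_) le_analyticOrderAt_sub
      · rw [analyticOrderAt_pow (hP w hw), ← h1]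
        exact nsmul_le_nsmul_right hPβ 2
      · rw [analyticOrderAt_pow (hP' w hw), ← h1]
        exact nsmul_le_nsmul_right hP'β 2
    have h3 : ((1 + 2 * β : ℕ) : ℕ∞) ≤ ((2 * β : ℕ) : ℕ∞) := by
      calc ((1 + 2 * β : ℕ) : ℕ∞) = 1 + ((2 * β : ℕ) : ℕ∞) := by push_cast; rfl
        _ ≤ 1 + analyticOrderAt (P ^ 2 - P' ^ 2) w := add_le_add_right h2 1
        _ = _ := o3.symm
    have h4 : 1 + 2 * β ≤ 2 * β := by exact_mod_cast h3
    omega

end Pool.Agent.Q320.MF
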